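import Pool.Agent.Q161.KeyRes
import Pool.Agent.Q161.KeyBox

/-!
# MP_5ec843_co: stable Lascoux expansions of code-stretched Grothendieck polynomials

All polynomials are regarded as elements of the field `F` of rational functions in
`β, x 0, x 1, …`.  Indices start at `0`.
-/

namespace Pool.Agent.Results.MP_5ec843_co.StableLascouxExpansion

open Finset Pool.Agent.Q161.Keys

/-- The ring `ℤ[β]`. -/
abbrev R := Polynomial ℤ

/-- The field of rational functions in `x 0, x 1, …` over `ℤ[β]` (fraction field of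
`ℤ[β][x 0, x 1, …]`). -/
abbrev F := RatFun R

/-- The indeterminate `β`. -/
noncomputable def β : F := algebraMap R F Polynomial.X

/-- The variable `x i`. -/
noncomputable def x (i : ℕ) : F := var R i

/-- The automorphism `s_i` of `F` exchanging `x i` and `x (i + 1)` and fixing `β`. -/
noncomputable def s (i : ℕ) (f : F) : F := permVars R (Equiv.swap i (i + 1)) f

/-- The divided difference `∂_i f = (f - s_i f) / (x_i - x_{i+1})`. -/
noncomputable def ddiff (i : ℕ) (f : F) : F := (f - s i f) / (x i - x (i + 1))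

/-- `f ↦ ∂_i ((1 + β x_{i+1}) f)`. -/
noncomputable def grothOp (i : ℕ) (f : F) : F := ddiff i ((1 + β * x (i + 1)) * f)

/-- `f ↦ ∂_i (x_i (1 + β x_{i+1}) f)`. -/
noncomputable def lascouxOp (i : ℕ) (f : F) : F := ddiff i (x i * (1 + β * x (i + 1)) * f)

/-- The Grothendieck polynomial of `w ∈ S_n` (a permutation of `ℕ` fixing every `i ≥ n`): it is
`x_0^{n-1} x_1^{n-2} ⋯` if `w` has no ascent `w i < w (i + 1)`, `i + 1 < n`, and otherwise
`∂_i ((1 + β x_{i+1}) 𝔊)` with `𝔊` the polynomial of `w s_i`, for the least ascent `i`. -/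
noncomputable def grothendieck (n : ℕ) (w : Equiv.Perm ℕ) : F :=
  climb grothOp (fun _ => ∏ i ∈ range n, x i ^ ((n : ℤ) - 1 - i)) n (fun i => (w i : ℤ))

/-- The Lascoux polynomial of `(α 0, …, α (h-1))`: it is `x^α` if `α` is weakly decreasing there,
and otherwise `∂_i (x_i (1 + β x_{i+1}) 𝔏)` with `𝔏` the polynomial of `s_i α`, for the least
ascent `i`. -/
noncomputable def lascoux (h : ℕ) (α : ℕ → ℤ) : F :=
  climb lascouxOp (fun α => ∏ i ∈ range h, x i ^ α i) h α

/-- `w` fixes every `i ≥ n`. -/
def Fixes (n : ℕ) (w : Equiv.Perm ℕ) : Prop := ∀ i, n ≤ i → w i = i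

/-- `w` is the stretched permutation `u^{(N)}`: finitely supported, with code `N · code u`. -/
def IsStretch (u : Equiv.Perm ℕ) (N : ℕ) (w : Equiv.Perm ℕ) : Prop :=
  (∃ n, Fixes n w) ∧ ∀ i, lehmer w i = N * lehmer u i

/-- Every Grothendieck polynomial is a combination of Lascoux polynomials with coefficients
(positive integer) times a power of `β` (theorem of Shimozono and Yu; used only in the last clause
of `result`). -/
def LascouxPositivity : Prop := ∀ (n : ℕ) (w : Equiv.Perm ℕ), Fixes n w →
  ∃ (d : (ℕ → ℤ) →₀ ℕ) (e : (ℕ → ℤ) → ℕ),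
    (∀ α ∈ d.support, ∀ i, 0 ≤ α i ∧ (n ≤ i → α i = 0)) ∧
    grothendieck n w = ∑ α ∈ d.support, (d α : F) * β ^ e α * lascoux n α

/-- The environment. -/
noncomputable abbrev E := conc R Polynomial.X

theorem s_β (i : ℕ) : s i β = β := by
  unfold s β
  exact AlgHom.commutes _ _

theorem D_eq : E.D = lascouxOp := by
  funext i f
  unfold lascouxOp ddiff
  have h1 : s i (x i * (1 + β * x (i + 1)) * f) = x (i + 1) * (1 + β * x i) * s i f := by
    have a1 := E.t_x i
    have a2 := E.t_x' i
    have a3 := s_β i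
    unfold s at *
    rw [map_mul, map_mul, map_add, map_mul, map_one, a3]
    have a1' : permVars R (Equiv.swap i (i + 1)) (x i) = x (i + 1) := a1
    have a2' : permVars R (Equiv.swap i (i + 1)) (x (i + 1)) = x i := a2
    rw [a1', a2']
  rw [h1]
  rfl

theorem dd_eq : E.dd = grothOp := by
  funext i f
  unfold grothOp ddiff
  have h1 : s i ((1 + β * x (i + 1)) * f) = (1 + β * x i) * s i f := by
    have a2 := E.t_x' i
    have a3 := s_β i
    unfold s at *
    rw [map_mul, map_add, map_mul, map_one, a3]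
    have a2' : permVars R (Equiv.swap i (i + 1)) (x (i + 1)) = x i := a2
    rw [a2']
  rw [h1]
  rfl

theorem key_eq (h : ℕ) (α : ℕ → ℤ) : E.key h α = lascoux h α := by
  unfold Env.key lascoux
  rw [D_eq]
  rfl

theorem groth_eq (n : ℕ) (w : Equiv.Perm ℕ) : E.groth n (line w) = grothendieck n w := by
  unfold Env.groth grothendieck
  rw [dd_eq]
  rfl

theorem algebraMap_monomial (e : ℕ) (a : ℤ) :
    algebraMap R F (Polynomial.monomial e a) = (a : F) * β ^ e := by
  rw [← Polynomial.C_mul_X_pow_eq_monomial, map_mul, map_pow]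
  congr 1
  rw [eq_intCast (Polynomial.C : ℤ →+* R) a, map_intCast]

theorem result :
    -- the polynomials `grothendieck n w` have the defining properties of Grothendieck polynomials
    (∀ (n : ℕ) (w : Equiv.Perm ℕ), (∀ i, i < n → w i = n - 1 - i) →
      grothendieck n w = ∏ i ∈ range n, x i ^ ((n : ℤ) - 1 - i)) ∧
    (∀ (n : ℕ) (w : Equiv.Perm ℕ) (i : ℕ), i + 1 < n → w (i + 1) < w i →
      grothendieck n (w * Equiv.swap i (i + 1)) =
        ddiff i ((1 + β * x (i + 1)) * grothendieck n w)) ∧
    (∀ (n n' : ℕ) (w : Equiv.Perm ℕ), Fixes n w → Fixes n' w →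
      grothendieck n w = grothendieck n' w) ∧
    -- the polynomials `lascoux h α` have the defining properties of Lascoux polynomials
    (∀ (h : ℕ) (α : ℕ → ℤ), (∀ i, i + 1 < h → α (i + 1) ≤ α i) →
      lascoux h α = ∏ i ∈ range h, x i ^ α i) ∧
    (∀ (h : ℕ) (α : ℕ → ℤ) (i : ℕ), i + 1 < h → α i < α (i + 1) →
      lascoux h α =
        ddiff i (x i * (1 + β * x (i + 1)) * lascoux h (fun j => α (Equiv.swap i (i + 1) j)))) ∧
    -- stretched permutations exist
    (∀ (u : Equiv.Perm ℕ) (n : ℕ), Fixes n u → ∀ N, ∃ w, IsStretch u N w) ∧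
    -- the stable expansion
    ∀ (u : Equiv.Perm ℕ) (h : ℕ), Fixes h u →
      ∃ (t : ℕ) (c : Fin t → ℤ) (e : Fin t → ℕ) (γ δ : Fin t → ℕ → ℤ),
        (∀ j, c j ≠ 0) ∧ (∀ j i, h ≤ i → γ j i = 0 ∧ δ j i = 0) ∧
        (∃ N₀ : ℕ, ∀ N ≥ N₀, (∀ j i, 0 ≤ N * γ j i + δ j i) ∧
          (Function.Injective fun j => (e j, fun i => (N : ℤ) * γ j i + δ j i)) ∧
          ∀ (w : Equiv.Perm ℕ) (n : ℕ), IsStretch u N w → Fixes n w →
            grothendieck n w =
              ∑ j, (c j : F) * β ^ e j * lascoux h (fun i => N * γ j i + δ j i)) ∧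
        (LascouxPositivity → ∀ j, 0 < c j) := by
  classical
  refine ⟨?_, ?_, ?_, ?_, ?_, ?_, ?_⟩
  · intro n w hw
    unfold grothendieck
    apply climb_base
    rintro i ⟨h1, h2⟩
    have h3 : (w i : ℤ) < (w (i + 1) : ℤ) := h2
    rw [hw i (by omega), hw (i + 1) h1] at h3
    omega
  · intro n w i hi hlt
    have e1 : ddiff i ((1 + β * x (i + 1)) * grothendieck n w) = E.dd i (grothendieck n w) := by
      rw [dd_eq]
      rfl
    rw [e1, ← groth_eq, ← groth_eq]
    have hA : Asc n (line (w * Equiv.swap i (i + 1))) i := by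
      refine ⟨hi, ?_⟩
      unfold line
      rw [Equiv.Perm.mul_apply, Equiv.Perm.mul_apply, Equiv.swap_apply_left,
        Equiv.swap_apply_right]
      exact_mod_cast hlt
    rw [E.groth_asc hA]
    congr 2
    funext j
    show line (w * Equiv.swap i (i + 1)) (Equiv.swap i (i + 1) j) = line w j
    unfold line
    rw [Equiv.Perm.mul_apply, Equiv.swap_apply_self]
  · intro n n' w h1 h2
    rw [← groth_eq, ← groth_eq]
    apply E.groth_eq_of_code _ _ (dist_line _ _) (dist_line _ _)
    intro i
    rw [code_line h1, code_line h2]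
  · intro h α hα
    unfold lascoux
    apply climb_base
    rintro i ⟨h1, h2⟩
    exact absurd (hα i h1) (not_le.2 h2)
  · intro h α i hi hlt
    have e1 : ∀ f, ddiff i (x i * (1 + β * x (i + 1)) * f) = E.D i f := by
      intro f
      rw [D_eq]
      rfl
    rw [e1, ← key_eq, ← key_eq]
    exact E.key_asc ⟨hi, hlt⟩
  · intro u n hu N
    exact exists_perm n (fun i => N * lehmer u i) (fun i hi => by
      rw [lehmer_eq_zero hu (by omega), mul_zero])
  · intro u h hu
    have hnn := E.nn (conc_monLI R Polynomial.X)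
    have hk := E.keyLI (conc_monLI R Polynomial.X)
    obtain ⟨c, hcs, hev⟩ := E.main hnn u h hu
    obtain ⟨N₀, hN₀⟩ := Filter.eventually_atTop.1 hev
    set S : Finset ((_ : (ℕ → ℤ) × (ℕ → ℤ)) × ℕ) := c.support.sigma (fun p => (c p).support)
      with hS
    have hmem : ∀ q ∈ S, q.1 ∈ c.support ∧ q.2 ∈ (c q.1).support := fun q hq =>
      Finset.mem_sigma.1 hq
    set e := S.equivFin.symm with he
    refine ⟨S.card, fun j => (c (e j).1.1).coeff (e j).1.2, fun j => (e j).1.2,
      fun j => (e j).1.1.1, fun j => (e j).1.1.2, ?_, ?_, ⟨N₀, ?_⟩, ?_⟩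
    · intro j
      exact Polynomial.mem_support_iff.1 (hmem _ (e j).2).2
    · intro j i hi
      exact hcs _ (hmem _ (e j).2).1 i hi
    · intro N hN
      obtain ⟨h1, h2, h3⟩ := hN₀ N hN
      refine ⟨fun j i => h2 _ (hmem _ (e j).2).1 i, ?_, ?_⟩
      · intro j j' heq
        apply e.injective
        apply Subtype.ext
        rw [Prod.mk.injEq] at heq
        have h4 := h1 (hmem _ (e j).2).1 (hmem _ (e j').2).1 heq.2
        exact Sigma.ext h4 (heq_of_eq heq.1)
      · intro w n hw hn
        rw [← groth_eq, h3 w n hn hw.2]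
        unfold Env.ev Finsupp.sum
        have h5 : ∑ j, ((c (e j).1.1).coeff (e j).1.2 : F) * β ^ (e j).1.2 *
            lascoux h (fun i => N * (e j).1.1.1 i + (e j).1.1.2 i) =
            ∑ q ∈ S, ((c q.1).coeff q.2 : F) * β ^ q.2 *
              lascoux h (fun i => N * q.1.1 i + q.1.2 i) := by
          rw [← Finset.sum_coe_sort S (fun q => ((c q.1).coeff q.2 : F) * β ^ q.2 *
              lascoux h (fun i => N * q.1.1 i + q.1.2 i)), ← Equiv.sum_comp e]
        rw [h5, hS, Finset.sum_sigma]
        apply Finset.sum_congr rfl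
        intro p _
        beta_reduce
        dsimp only
        rw [Algebra.smul_def, key_eq, ← Finset.sum_mul]
        have h6 : algebraMap R F (c p) = ∑ i ∈ (c p).support, ((c p).coeff i : F) * β ^ i := by
          conv_lhs => rw [(c p).as_sum_support]
          rw [map_sum]
          exact Finset.sum_congr rfl fun i _ => algebraMap_monomial _ _
        rw [h6]
        rfl
    · intro hpos j
      obtain ⟨h1, h2, h3⟩ := hN₀ N₀ le_rfl
      obtain ⟨w, ⟨n0, hn0⟩, hl⟩ := exists_perm h (fun i => N₀ * lehmer u i) (fun i hi => by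
        rw [lehmer_eq_zero hu (by omega), mul_zero])
      have hn : Fixes (max n0 h) w := fun i hi => hn0 i (by omega)
      obtain ⟨d, ex, hd1, hd2⟩ := hpos (max n0 h) w hn
      set d' : (ℕ → ℤ) →₀ R := Finsupp.onFinset d.support
        (fun α => Polynomial.monomial (ex α) ((d α : ℕ) : ℤ)) (by
          intro α hα
          rw [Finsupp.mem_support_iff]
          intro h0
          rw [h0] at hα
          simp at hα) with hd'
      have h4 := E.coeff_eq hk (le_max_right n0 h) c hcs N₀ h1 h2 d'
        (fun α hα i hi => (hd1 α (Finsupp.support_onFinset_subset hα) i).2 hi) (by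
          rw [← h3 w _ hn hl, groth_eq, hd2, hd', Finsupp.onFinset_sum _ (by
            intro α
            rw [Algebra.smul_def, map_zero, zero_mul])]
          apply Finset.sum_congr rfl
          intro α _
          rw [Algebra.smul_def, algebraMap_monomial, key_eq]
          push_cast
          rfl) _ (hmem _ (e j).2).1
      have h5 : (c (e j).1.1).coeff (e j).1.2 ≠ 0 :=
        Polynomial.mem_support_iff.1 (hmem _ (e j).2).2
      show 0 < (c (e j).1.1).coeff (e j).1.2
      rw [h4, hd', Finsupp.onFinset_apply, Polynomial.coeff_monomial] at h5 ⊢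
      split_ifs at h5 ⊢ with h6
      · omega
      · exact absurd rfl h5

end Pool.Agent.Results.MP_5ec843_co.StableLascouxExpansion
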